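import Pool.Agent.TH686.DO.Inv2

set_option autoImplicit false

/-! Vaught's conjecture (perfect-set form) for all first-order theories in all countable languages
is equivalent to its restriction to the complete theories of pairs of dense linear orders without
endpoints, and to its restriction to the complete theories of expansions of the order of the
rational numbers by one involution (without fixed points, exchanging an initial segment with its
complement). -/

namespace Pool.Agent.Results.MP_5df2c5_lc.DenseOrderInvolution

open FirstOrder
open Pool.Agent.TH686.FO (L2 R2)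

/-- Vaught's conjecture, perfect-set form, for the theory `T` in the language `L` (the body of the
frozen statement): the models with universe `ℕ` fall into countably many isomorphism classes, or
some continuous family of models, indexed by the Cantor space, consists of pairwise
non-isomorphic models. -/
def Dichotomy (L : FirstOrder.Language.{0, 0}) (T : L.Theory) : Prop :=
  (∃ g : ℕ → L.Structure ℕ, ∀ S : L.Structure ℕ,
      @FirstOrder.Language.Theory.Model L ℕ S T →
        ∃ n : ℕ, Nonempty (@FirstOrder.Language.Equiv L ℕ ℕ S (g n))) ∨
  (∃ f : (ℕ → Bool) → L.Structure ℕ,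
      (∀ x : ℕ → Bool, @FirstOrder.Language.Theory.Model L ℕ (f x) T) ∧
      (∀ x y : ℕ → Bool,
          Nonempty (@FirstOrder.Language.Equiv L ℕ ℕ (f x) (f y)) → x = y) ∧
      (∀ (n : ℕ) (R : L.Relations n) (a : Fin n → ℕ),
          IsClopen {x : ℕ → Bool | @FirstOrder.Language.Structure.RelMap L ℕ (f x) n R a}) ∧
      (∀ (n : ℕ) (F : L.Functions n) (a : Fin n → ℕ) (b : ℕ),
          IsOpen {x : ℕ → Bool | @FirstOrder.Language.Structure.funMap L ℕ (f x) n F a = b}))

/-- Vaught's conjecture for all first-order theories in all countable languages (the frozen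
statement). -/
def FullConjecture : Prop :=
  ∀ L : FirstOrder.Language.{0, 0}, Countable L.Symbols → ∀ T : L.Theory, Dichotomy L T

/-- The interpretation of the first of the two binary relation symbols of the language
`Pool.Agent.TH686.FO.L2`. -/
def First (S : L2.Structure ℕ) (x y : ℕ) : Prop :=
  @FirstOrder.Language.Structure.RelMap L2 ℕ S 2 R2.fst ![x, y]

/-- The interpretation of the second relation symbol. -/
def Second (S : L2.Structure ℕ) (x y : ℕ) : Prop :=
  @FirstOrder.Language.Structure.RelMap L2 ℕ S 2 R2.snd ![x, y]

/-- Dense linear orders without endpoints on `ℕ` (copies of the order of the rational numbers). -/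
structure DenseOrder (r : ℕ → ℕ → Prop) : Prop where
  irrefl : ∀ x, ¬ r x x
  trans : ∀ x y z, r x y → r y z → r x z
  total : ∀ x y, x ≠ y → r x y ∨ r y x
  dense : ∀ x y, r x y → ∃ z, r x z ∧ r z y
  above : ∀ x, ∃ y, r x y
  below : ∀ x, ∃ y, r y x

/-- `r` is a dense linear order without endpoints, and `e` is the graph of an involution without
fixed points; the elements which are smaller than their partner are below all the elements which
are larger than their partner. -/
structure OrderWithInvolution (r e : ℕ → ℕ → Prop) : Prop where
  order : DenseOrder r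
  partner : ∀ x, ∃! y, e x y
  symm : ∀ x y, e x y → e y x
  irrefl : ∀ x, ¬ e x x
  cut : ∀ x x' y y', e x x' → e y y' → r x x' → r y y' → r x y'

open Pool.Agent.TH686.DO Pool.Agent.TH686.FO in
private theorem order_iff {r : ℕ → ℕ → Prop} : DenseOrder r ↔ DL1 r :=
  ⟨fun h => ⟨⟨h.irrefl, h.trans, h.total⟩, h.dense, h.above, h.below⟩,
    fun h => ⟨h.slo.irrefl, h.slo.trans, h.slo.total, h.dn, h.ab, h.be⟩⟩

open Pool.Agent.TH686.DO Pool.Agent.TH686.FO in
private theorem inv_iff {S : L2.Structure ℕ} :
    OrderWithInvolution (First S) (Second S) ↔ IW S := by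
  constructor
  · intro h
    exact ⟨⟨h.order.irrefl, h.order.trans, h.order.total⟩, h.order.dense, h.order.above,
      h.order.below, h.symm, h.irrefl, fun u v w h1 h2 => (h.partner u).unique h1 h2,
      fun u => (h.partner u).exists, h.cut⟩
  · intro h
    exact ⟨⟨h.o.irrefl, h.o.trans, h.o.total, h.dn, h.ab, h.be⟩,
      fun x => (h.tot x).elim fun y hy => ⟨y, hy, fun z hz => h.fn x z y hz hy⟩, h.sy, h.ir, h.cut⟩

/-- **Theorem.** Vaught's conjecture (perfect-set form) for all first-order theories in all
countable languages is equivalent to Vaught's conjecture for the complete theories of pairs of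
dense linear orders without endpoints, and to Vaught's conjecture for the complete theories of
dense linear orders without endpoints with an involution which has no fixed points and exchanges
an initial segment with its complement. -/
theorem result :
    (FullConjecture ↔ ∀ T : L2.Theory, T.IsComplete →
      (∀ S : L2.Structure ℕ, @FirstOrder.Language.Theory.Model L2 ℕ S T →
        DenseOrder (First S) ∧ DenseOrder (Second S)) → Dichotomy L2 T) ∧
    (FullConjecture ↔ ∀ T : L2.Theory, T.IsComplete →
      (∀ S : L2.Structure ℕ, @FirstOrder.Language.Theory.Model L2 ℕ S T →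
        OrderWithInvolution (First S) (Second S)) → Dichotomy L2 T) := by
  have hc : Countable L2.Symbols := Pool.Agent.TH686.FO.countable_L2s
  refine ⟨⟨fun h T _ _ => h L2 hc T, fun h L hL T => ?_⟩,
    ⟨fun h T _ _ => h L2 hc T, fun h L hL T => ?_⟩⟩
  · exact Pool.Agent.TH686.DO.full_dd (fun T' hT' hS => h T' hT' fun S hm =>
      ⟨order_iff.2 (hS S hm).1, order_iff.2 (hS S hm).2⟩) L hL T
  · exact Pool.Agent.TH686.DO.full_inv (fun T' hT' hS => h T' hT' fun S hm =>
      inv_iff.2 (hS S hm)) L hL T

end Pool.Agent.Results.MP_5df2c5_lc.DenseOrderInvolution
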