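import Pool.Agent.Y566.ZM.Tame

set_option autoImplicit false

/-!
Vaught's conjecture, in perfect-set form, for Borel classes of countable ordered abelian groups
which are divisible modulo a subgroup of finite rank, and more generally modulo a subgroup of finite
rank over a convex archimedean subgroup. This contains all `L_ω₁ω` sentences all of whose models are
models of Presburger arithmetic, and the analogous ones for the theory of the lexicographic
products `ℤⁿ`.
-/

namespace Pool.Agent.Results.MP_5607ba_lc.DivisibleModuloFiniteRank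

/-- Structures with universe `ℕ` for the language with a binary relation `<` (a function to
`Bool`) and a binary function `+`. -/
abbrev Str : Type := (ℕ → ℕ → Bool) × (ℕ → ℕ → ℕ)

/-- Isomorphism of structures. -/
def Iso (x y : Str) : Prop := ∃ σ : Equiv.Perm ℕ,
  (∀ m n, y.1 (σ m) (σ n) = x.1 m n) ∧ ∀ m n, y.2 (σ m) (σ n) = σ (x.2 m n)

/-- The structure `x` is isomorphic to the ordered group `G`. -/
def IsCopy (x : Str) (G : Type) [AddCommGroup G] [LinearOrder G] : Prop :=
  ∃ e : ℕ ≃ G, (∀ m n, x.1 m n = true ↔ e m < e n) ∧ ∀ m n, e (x.2 m n) = e m + e n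

/-- The subgroup `A` is convex. -/
def ConvexSubgroup {G : Type} [AddCommGroup G] [LinearOrder G] (A : AddSubgroup G) : Prop :=
  ∀ a b : G, |a| ≤ |b| → b ∈ A → a ∈ A

/-- The subgroup `A` is archimedean (this includes the trivial subgroup). -/
def ArchimedeanSubgroup {G : Type} [AddCommGroup G] [LinearOrder G] (A : AddSubgroup G) : Prop :=
  ∀ a b : G, a ∈ A → b ∈ A → 0 < a → ∃ N : ℕ, b ≤ N • a

/-- The subgroup `S` has finite rank modulo `A`: there is a finite tuple `t` such that every element
of `S` has a nonzero multiple which is an integer combination of `t` modulo `A`. -/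
def FiniteRankModulo {G : Type} [AddCommGroup G] (S A : AddSubgroup G) : Prop :=
  ∃ (n : ℕ) (t : Fin n → G), ∀ h ∈ S, ∃ (N : ℕ) (c : Fin n → ℤ),
    N ≠ 0 ∧ N • h - ∑ i, c i • t i ∈ A

/-- The quotient `G / S` is divisible. -/
def DivisibleModulo {G : Type} [AddCommGroup G] (S : AddSubgroup G) : Prop :=
  ∀ (g : G) (N : ℕ), N ≠ 0 → ∃ g' : G, g - N • g' ∈ S

/-- The ordered group `G` is divisible modulo a subgroup `S` which has finite rank over a convex
archimedean subgroup `A`. (If `A` is trivial this says that `G` is divisible modulo a subgroup of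
finite rank. The subgroup `S` need not be convex.) -/
def Tame (G : Type) [AddCommGroup G] [LinearOrder G] : Prop :=
  ∃ A S : AddSubgroup G, A ≤ S ∧ ConvexSubgroup A ∧ ArchimedeanSubgroup A ∧
    FiniteRankModulo S A ∧ DivisibleModulo S

/-- The finite tuple `t` generates `G` modulo `N G` for every `N`. -/
def FinitelyGeneratedModulo (G : Type) [AddCommGroup G] : Prop :=
  ∃ (n : ℕ) (t : Fin n → G), ∀ (g : G) (N : ℕ), N ≠ 0 →
    ∃ (g' : G) (c : Fin n → ℤ), g = N • g' + ∑ i, c i • t i

/-- `G` is a `ℤ`-group, that is, a model of Presburger arithmetic: there is a least positive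
element `u`, and every element is congruent to a multiple `r u` modulo every `N`. -/
def Presburger (G : Type) [AddCommGroup G] [LinearOrder G] : Prop :=
  ∃ u : G, 0 < u ∧ (∀ g : G, 0 < g → u ≤ g) ∧
    ∀ (g : G) (N : ℕ), N ≠ 0 → ∃ (g' : G) (r : ℕ), g = N • g' + r • u

/-- Let `B` be an isomorphism-invariant Borel class of structures with universe `ℕ`, all of which
are ordered abelian groups that are divisible modulo a subgroup of finite rank over a convex
archimedean subgroup. Then `B` contains only countably many structures up to isomorphism, or there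
is a continuous map from the Cantor space to `B` with pairwise non-isomorphic values. Every ordered
abelian group with a finite tuple that generates it modulo every `N`, in particular every model of
Presburger arithmetic, is such a group. -/
theorem result :
    (∀ B : Set Str, MeasurableSet B → (∀ x ∈ B, ∀ y, Iso x y → y ∈ B) →
      (∀ x ∈ B, ∃ (G : Type) (_ : AddCommGroup G) (_ : LinearOrder G) (_ : IsOrderedAddMonoid G),
        IsCopy x G ∧ Tame G) →
      (∃ f : ℕ → Str, ∀ x ∈ B, ∃ n, Iso (f n) x) ∨
      (∃ g : (ℕ → Bool) → Str, Continuous g ∧ (∀ c, g c ∈ B) ∧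
        ∀ c d, Iso (g c) (g d) → c = d)) ∧
    (∀ (G : Type) [AddCommGroup G] [LinearOrder G] [IsOrderedAddMonoid G],
      FinitelyGeneratedModulo G → Tame G) ∧
    ∀ (G : Type) [AddCommGroup G] [LinearOrder G] [IsOrderedAddMonoid G],
      Presburger G → FinitelyGeneratedModulo G := by
  refine ⟨?_, ?_, ?_⟩
  · intro B hB hBi hBG
    let T : Pool.Agent.Y566.ZM.XS 0 → Str := fun y => (y.1, y.2.1)
    have hTc : Continuous T := Continuous.prodMk continuous_fst (continuous_fst.comp continuous_snd)
    have hTm : Measurable T := Measurable.prodMk measurable_fst (measurable_fst.comp measurable_snd)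
    have hTi : ∀ y y', Pool.Agent.Y566.ZM.XIso y y' ↔ Iso (T y) (T y') := by
      intro y y'
      constructor
      · rintro ⟨τ, h1, h2, -⟩
        exact ⟨τ, h1, h2⟩
      · rintro ⟨τ, h1, h2⟩
        exact ⟨τ, h1, h2, fun i => i.elim0⟩
    rcases Pool.Agent.Y566.ZM.main_xs (T ⁻¹' B) (hTm hB)
      (fun y hy y' h => hBi _ hy _ ((hTi _ _).1 h)) (by
        intro y hy
        obtain ⟨G, i1, i2, i3, ⟨e, h1, h2⟩, h3⟩ := hBG _ hy
        obtain ⟨n, s, hs⟩ := Pool.Agent.Y566.ZM.Tm.gd (G := G) h3
        refine ⟨n, fun i => e.symm (s i), G, i1, i2, i3, e, ⟨h1, h2⟩, ?_⟩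
        simp only [Equiv.apply_symm_apply]
        exact hs) with ⟨f, hf⟩ | ⟨g, hg1, hg2, hg3⟩
    · left
      refine ⟨fun n => T (f n), fun x hx => ?_⟩
      obtain ⟨n, hn⟩ := hf (x.1, x.2, Fin.elim0) hx
      exact ⟨n, (hTi _ _).1 hn⟩
    · right
      exact ⟨fun c => T (g c), hTc.comp hg1, hg2, fun c d h => hg3 c d ((hTi _ _).2 h)⟩
  · intro G i1 i2 i3 h
    obtain ⟨n, t, h1⟩ := h
    exact Pool.Agent.Y566.ZM.tm_fin h1
  · intro G i1 i2 i3 h
    obtain ⟨u, -, -, h3⟩ := h
    refine ⟨1, fun _ => u, fun g N hN => ?_⟩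
    obtain ⟨g', r, h4⟩ := h3 g N hN
    refine ⟨g', fun _ => r, ?_⟩
    simpa using h4

end Pool.Agent.Results.MP_5607ba_lc.DivisibleModuloFiniteRank
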